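import Pool.Agent.Run7.h568.MC.Final4

/-!
# Uniqueness of AdS convex cores with prescribed bending multicurves

`P` describes a closed oriented surface cut into discs by a multicurve `α` and a pants
decomposition `β`; `a`, `b` are weights on `α` and `β`, those on `β` of one sign and possibly zero
on some components (so that `β` may be the completion of a multicurve which fills with `α`); every
component of `α` crosses a component of `β` of nonzero weight.  Then at most one pair of
hyperbolic metrics is such that the first is the image of the second both by the left earthquake
along `Σ a α` and by the right earthquake along `Σ b β`.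
-/

open Run7.h568.MC

theorem Pool.Agent.Results.MP_607013_gt.WeightedMulticurves.result
    {V : Type*} [Fintype V] (P : Pattern V) (a b : V → ℝ)
    (hb : (∀ p, 0 ≤ b p) ∨ (∀ p, b p ≤ 0))
    (hfill : ∀ p, ∃ n : ℕ, b (P.A^[n] p) ≠ 0) (C C' : Core P a b) :
    C.left = C'.left ∧ C.right = C'.right :=
  Asm.core_unique a b hb hfill C C'
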